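import Mathlib

namespace Pool.Agent.Results.MP_aceab8_an.Even

open Matrix

/-- outer normals of the regular tetrahedron with vertices minus these vectors -/
def N : Fin 4 → Fin 3 → ℝ := ![![1, 1, 1], ![1, -1, -1], ![-1, 1, -1], ![-1, -1, 1]]

/-- billiard trajectory in the tetrahedron N j ⬝ x ≤ 1: bounce points p, velocities v after the
bounce, faces f, flight times t -/
def Traj (p v : ℕ → Fin 3 → ℝ) (f : ℕ → Fin 4) (t : ℕ → ℝ) : Prop :=
  ∀ k, v k ⬝ᵥ v k = 1 ∧ 0 < t k ∧ N (f k) ⬝ᵥ p k = 1 ∧ (∀ j, j ≠ f k → N j ⬝ᵥ p k < 1) ∧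
    (∀ s, 0 < s → s < t k → ∀ j, N j ⬝ᵥ (p k + s • v k) < 1) ∧
    p (k + 1) = p k + t k • v k ∧
    v (k + 1) = v k - (2 * (v k ⬝ᵥ N (f (k + 1))) / (N (f (k + 1)) ⬝ᵥ N (f (k + 1)))) • N (f (k + 1))

def Z : Fin 4 → Fin 3 → ℤ := ![![1, 1, 1], ![1, -1, -1], ![-1, 1, -1], ![-1, -1, 1]]

def A (i : Fin 4) : Matrix (Fin 3) (Fin 3) ℤ := (3 : ℤ) • 1 - (2 : ℤ) • vecMulVec (Z i) (Z i)

def P (f : ℕ → Fin 4) : ℕ → Matrix (Fin 3) (Fin 3) ℤ
  | 0 => 1
  | k + 1 => A (f (k + 1)) * P f k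

theorem A1 : ∀ i, (A i)ᵀ * A i = (9 : ℤ) • 1 := by decide

theorem A2 : ∀ i, (A i).det = -27 := by
  intro i
  rw [det_fin_three]
  revert i
  decide

theorem A3 : ∀ i j, i ≠ j → ∀ a, (3 : ℤ) ∣ (A i *ᵥ Z j + Z i) a := by decide

theorem A4 : ∀ i a b, (3 : ℤ) ∣ A i a b - Z i a * Z i b := by decide

theorem A5 : ∀ i j, i ≠ j → Z i ⬝ᵥ Z j = -1 := by decide

theorem A6 (i : Fin 4) (v : Fin 3 → ℝ) : (A i).map (Int.cast : ℤ → ℝ) *ᵥ v =
    (3 : ℝ) • (v - (2 * (v ⬝ᵥ N i) / (N i ⬝ᵥ N i)) • N i) := by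
  ext a
  simp only [A, mulVec, dotProduct, Fin.sum_univ_three, vecMulVec_apply, one_apply, map_apply,
    Matrix.sub_apply, Matrix.smul_apply, Pi.smul_apply, Pi.sub_apply, smul_eq_mul]
  fin_cases i <;> fin_cases a <;> simp [Z, N] <;> ring

theorem result (p v : ℕ → Fin 3 → ℝ) (f : ℕ → Fin 4) (t : ℕ → ℝ) (h : Traj p v f t) (n : ℕ)
    (hp : p n = p 0) (hv : v n = v 0) : Even n := by
  by_contra hn
  rw [Nat.not_even_iff_odd] at hn
  have ne : ∀ k, f (k + 1) ≠ f k := fun k e => by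
    obtain ⟨-, h1, h2, -, h3, h4, -⟩ := h k
    have h5 := (h (k + 1)).2.2.1
    have h6 := h3 (t k / 2) (by linarith) (by linarith) (f k)
    rw [e, h4] at h5
    rw [dotProduct_add, dotProduct_smul, smul_eq_mul] at h5 h6
    linarith
  have fn : f n = f 0 := by
    by_contra e
    have h1 := (h 0).2.2.2.1 _ e
    have h2 := (h n).2.2.1
    rw [hp] at h2
    linarith
  have p1 : ∀ k, (P f k).map (Int.cast : ℤ → ℝ) *ᵥ v 0 = (3 : ℝ) ^ k • v k := fun k => by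
    induction k with
    | zero => simp [P]
    | succ k ih =>
      rw [P, show (A (f (k + 1)) * P f k).map (Int.cast : ℤ → ℝ) = (A (f (k + 1))).map Int.cast *
        (P f k).map Int.cast from Matrix.map_mul (f := Int.castRingHom ℝ), ← mulVec_mulVec, ih,
        mulVec_smul, A6, ← (h k).2.2.2.2.2.2, smul_smul, pow_succ]
  have p2 : ∀ k, (P f k)ᵀ * P f k = (9 : ℤ) ^ k • 1 ∧ (P f k).det = (-27) ^ k := fun k => by
    induction k with
    | zero => simp [P]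
    | succ k ih =>
      rw [P, transpose_mul, Matrix.mul_assoc, ← Matrix.mul_assoc _ (A _), A1, det_mul, A2, ih.2,
        Matrix.smul_mul, Matrix.one_mul, Matrix.mul_smul, ih.1, smul_smul, pow_succ', pow_succ']
      exact ⟨rfl, rfl⟩
  have p3 : ∀ k a b, (3 : ℤ) ∣ P f (k + 1) a b - (-1) ^ k * (Z (f (k + 1)) a * Z (f 1) b) :=
    fun k => by
    induction k with
    | zero => simpa [P] using A4 (f 1)
    | succ k ih =>
      intro a b
      obtain ⟨c, hc⟩ := A3 _ _ (ne (k + 1)) a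
      obtain ⟨c0, h0⟩ := ih 0 b
      obtain ⟨c1, h1⟩ := ih 1 b
      obtain ⟨c2, h2⟩ := ih 2 b
      rw [P, mul_apply, Fin.sum_univ_three]
      simp only [Pi.add_apply, mulVec, dotProduct, Fin.sum_univ_three] at hc
      exact ⟨(-1) ^ k * c * Z (f 1) b + A (f (k + 1 + 1)) a 0 * c0 + A (f (k + 1 + 1)) a 1 * c1 +
        A (f (k + 1 + 1)) a 2 * c2, by
        linear_combination (-1) ^ k * Z (f 1) b * hc + A (f (k + 1 + 1)) a 0 * h0 +
          A (f (k + 1 + 1)) a 1 * h1 + A (f (k + 1 + 1)) a 2 * h2⟩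
  have q1 : ((3 : ℤ) ^ n • (1 : Matrix (Fin 3) (Fin 3) ℤ) - P f n).det = 0 := by
    have v0 : v 0 ≠ 0 := fun e => by simpa [e] using (h 0).1
    have : (((3 : ℤ) ^ n • (1 : Matrix (Fin 3) (Fin 3) ℤ) - P f n).map
        (Int.cast : ℤ → ℝ)).det = 0 := by
      refine exists_mulVec_eq_zero_iff.1 ⟨v 0, v0, ?_⟩
      rw [Matrix.map_sub _ Int.cast_sub, sub_mulVec, p1, hv, sub_eq_zero]
      ext a
      simp only [mulVec, dotProduct, Fin.sum_univ_three, one_apply, map_apply, Matrix.smul_apply,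
        Pi.smul_apply, smul_eq_mul]
      fin_cases a <;> simp
    rw [← Int.cast_det] at this
    exact_mod_cast this
  obtain ⟨o1, o2⟩ := p2 n
  rw [show (9 : ℤ) ^ n = 3 ^ n * 3 ^ n by rw [← mul_pow]; norm_num] at o1
  rw [hn.neg_pow, show (27 : ℤ) ^ n = 3 ^ n * 3 ^ n * 3 ^ n by
    rw [← mul_pow, ← mul_pow]; norm_num] at o2
  have c0 : (3 : ℤ) ^ n * 3 ^ n ≠ 0 := by positivity
  have c3 : (3 : ℤ) ∣ 3 ^ n := dvd_pow_self 3 hn.pos.ne'
  generalize (3 : ℤ) ^ n = c at q1 o1 o2 c0 c3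
  have q2 : (c * c) • adjugate (P f n) = (P f n).det • (P f n)ᵀ := by
    rw [← Matrix.one_mul (adjugate _), ← Matrix.smul_mul, ← o1, Matrix.mul_assoc, mul_adjugate,
      Matrix.mul_smul, Matrix.mul_one]
  have q3 := congrArg trace q2
  rw [trace_smul, trace_smul, trace_transpose, o2, smul_eq_mul, smul_eq_mul] at q3
  have q4 : (c • (1 : Matrix (Fin 3) (Fin 3) ℤ) - P f n).det = c * c * c - c * c * trace (P f n) +
      c * trace (adjugate (P f n)) - (P f n).det := by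
    simp only [det_fin_three, Matrix.sub_apply, Matrix.smul_apply, one_apply, smul_eq_mul]
    simp [adjugate_fin_three, trace, Fin.sum_univ_three]
    ring
  have q5 : trace (adjugate (P f n)) = -c * trace (P f n) :=
    mul_left_cancel₀ c0 (by linear_combination q3)
  have q6 : trace (P f n) = c := by
    rw [q1, q5, o2] at q4
    have : c * c * (2 * trace (P f n)) = c * c * (2 * c) := by linear_combination q4
    have := mul_left_cancel₀ c0 this
    omega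
  obtain ⟨m, rfl⟩ := hn
  have r := A5 _ _ (ne 0)
  have r0 := p3 (2 * m) 0 0
  have r1 := p3 (2 * m) 1 1
  have r2 := p3 (2 * m) 2 2
  rw [fn, pow_mul, neg_one_sq, one_pow, one_mul] at r0 r1 r2
  simp only [trace, diag, Fin.sum_univ_three] at q6
  simp only [dotProduct, Fin.sum_univ_three, zero_add] at r
  obtain ⟨a0, r0⟩ := r0
  obtain ⟨a1, r1⟩ := r1
  obtain ⟨a2, r2⟩ := r2
  obtain ⟨a3, c3⟩ := c3
  have : 3 * (a3 - a0 - a1 - a2) = -1 := by linear_combination r + r0 + r1 + r2 - q6 - c3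
  omega

end Pool.Agent.Results.MP_aceab8_an.Even
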